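import Pool.Agent.Helper85_CYD.StG

set_option autoImplicit false

/-!
# CYD, modules DISC and COE
-/

namespace Pool.Agent.CYD.H18

open Polynomial Pool.Agent.CYD

theorem re_ge (z w : ℂ) (hz : 1 ≤ ‖z‖) (hw : ‖w‖ = 1) (hne : z - w ≠ 0) :
    1 / 2 ≤ (z * (1 / (z - w))).re := by
  have h1 : z * (1 / (z - w)) = z * (starRingEnd ℂ) (z - w) / ((Complex.normSq (z - w) : ℝ) : ℂ) := by
    rw [mul_one_div, div_eq_div_iff hne]
    · rw [← Complex.mul_conj (z - w)]
      ring
    · rw [Complex.ofReal_ne_zero]
      exact (Complex.normSq_pos.mpr hne).ne'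
  rw [h1, Complex.div_ofReal_re]
  have hpos : 0 < Complex.normSq (z - w) := Complex.normSq_pos.mpr hne
  rw [div_le_div_iff₀ (by norm_num) hpos]
  have hz2 : 1 ≤ z.re * z.re + z.im * z.im := by
    have h3 : 1 ≤ ‖z‖ ^ 2 := by nlinarith
    rw [← Complex.normSq_eq_norm_sq, Complex.normSq_apply] at h3
    exact h3
  have hw2 : w.re * w.re + w.im * w.im = 1 := by
    have h3 : ‖w‖ ^ 2 = 1 := by rw [hw, one_pow]
    rw [← Complex.normSq_eq_norm_sq, Complex.normSq_apply] at h3
    exact h3
  rw [Complex.normSq_apply]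
  simp only [Complex.mul_re, Complex.conj_re, Complex.conj_im, Complex.sub_re, Complex.sub_im]
  nlinarith

theorem disc : DiscStmt := by
  intro n hn z hz
  have : NeZero n := ⟨hn.ne'⟩
  have : NeZero ((n : ℕ) : ℂ) := ⟨by exact_mod_cast hn.ne'⟩
  have e1 : aeval z (derivative (cyclotomic n ℤ)) = eval z (derivative (cyclotomic n ℂ)) := by
    rw [aeval_def, eval₂_eq_eval_map, ← derivative_map, algebraMap_int_eq,
      map_cyclotomic_int n ℂ]
  rw [e1]
  intro h0
  by_cases hr : eval z (cyclotomic n ℂ) = 0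
  · have hsep : (cyclotomic n ℂ).Separable := separable_cyclotomic n ℂ
    exact hsep.eval₂_derivative_ne_zero (RingHom.id ℂ) (by
      rw [eval₂_id]
      exact hr) (by
      rw [eval₂_id]
      exact h0)
  · have hroots : (cyclotomic n ℂ).roots = (primitiveRoots n ℂ).val :=
      cyclotomic.roots_eq_primitiveRoots_val
    have hdiv : eval z (derivative (cyclotomic n ℂ)) / eval z (cyclotomic n ℂ) =
        ((cyclotomic n ℂ).roots.map fun w => 1 / (z - w)).sum :=
      Splits.eval_derivative_div_eval_of_ne_zero (IsAlgClosed.splits _) hr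
    rw [h0, zero_div, hroots] at hdiv
    have h1 : ∑ w ∈ primitiveRoots n ℂ, (z * (1 / (z - w))).re = 0 := by
      have h2 : ∑ w ∈ primitiveRoots n ℂ, 1 / (z - w) = 0 := hdiv.symm
      rw [← Complex.re_sum, ← Finset.mul_sum, h2, mul_zero, Complex.zero_re]
    have h2 : ∀ w ∈ primitiveRoots n ℂ, (1 / 2 : ℝ) ≤ (z * (1 / (z - w))).re := by
      intro w hw
      have hwp : IsPrimitiveRoot w n := (mem_primitiveRoots hn).mp hw
      refine re_ge z w hz (hwp.norm'_eq_one hn.ne') ?_
      intro hzw
      rw [sub_eq_zero] at hzw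
      apply hr
      rw [hzw]
      have h3 : w ∈ (cyclotomic n ℂ).roots := by
        rw [hroots]
        exact hw
      exact (mem_roots (cyclotomic_ne_zero n ℂ)).mp h3
    have h3 := Finset.card_nsmul_le_sum _ _ _ h2
    rw [h1, Complex.card_primitiveRoots, nsmul_eq_mul] at h3
    have h4 : 0 < n.totient := Nat.totient_pos.mpr hn
    have h5 : (0 : ℝ) < n.totient := by exact_mod_cast h4
    linarith

theorem coe_one : ∀ n : ℕ, Squarefree n →
    (cyclotomic n ℤ).coeff 1 = 1 ∨ (cyclotomic n ℤ).coeff 1 = -1 := by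
  intro n
  induction n using Nat.strong_induction_on with
  | _ n ih =>
    intro hsq
    have hn0 : n ≠ 0 := hsq.ne_zero
    by_cases hn1 : n = 1
    · subst hn1
      left
      rw [cyclotomic_one, coeff_sub, coeff_X_one, coeff_one]
      norm_num
    · obtain ⟨p, hp, m, hm⟩ := Nat.exists_prime_and_dvd hn1
      have hp1 : 1 < p := hp.one_lt
      have hm0 : 0 < m := by
        rcases Nat.eq_zero_or_pos m with h | h
        · rw [h, mul_zero] at hm
          exact absurd hm hn0
        · exact h
      have hpm : ¬ p ∣ m := by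
        rintro ⟨k, hk⟩
        have h1 : p * p ∣ n := ⟨k, by rw [hm, hk]; ring⟩
        exact hp.one_lt.ne' (Nat.isUnit_iff.mp (hsq p h1))
      have hmsq : Squarefree m := hsq.squarefree_of_dvd ⟨p, by rw [hm]; ring⟩
      have hmn : m < n := by
        rw [hm]
        nlinarith
      have h1 := ih m hmn hmsq
      have h2 := cyclotomic_expand_eq_cyclotomic_mul hp hpm ℤ
      have h3 : (expand ℤ p (cyclotomic m ℤ)).coeff 1 =
          (cyclotomic (m * p) ℤ * cyclotomic m ℤ).coeff 1 := by rw [h2]
      rw [coeff_expand hp.pos, if_neg (by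
        intro h
        exact hp.one_lt.ne' (Nat.dvd_one.mp h)), mul_coeff_one] at h3
      have h4 : (cyclotomic (m * p) ℤ).coeff 0 = 1 :=
        cyclotomic_coeff_zero ℤ (by nlinarith)
      have h5 : (cyclotomic m ℤ).coeff 0 = 1 ∨ (cyclotomic m ℤ).coeff 0 = -1 := by
        rcases Nat.lt_or_ge 1 m with h | h
        · exact Or.inl (cyclotomic_coeff_zero ℤ h)
        · have : m = 1 := by omega
          subst this
          right
          rw [cyclotomic_one, coeff_sub, coeff_X_zero, coeff_one_zero]
          norm_num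
      rw [h4, mul_comm m p, ← hm] at h3
      rcases h1 with h1 | h1 <;> rcases h5 with h5 | h5 <;> rw [h1, h5] at h3
      · right; linarith
      · left; linarith
      · left; linarith
      · right; linarith

theorem coe : CoeStmt := by
  intro n hsq hn
  exact ⟨cyclotomic_coeff_zero ℤ (by omega), coe_one n hsq⟩

end Pool.Agent.CYD.H18
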